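import Mathlib

set_option autoImplicit false

namespace Pool.Agent.P.MP_e9de1a_an

/-- Space derivative of a function of `(x, t)`. -/
noncomputable def dx (u : ℝ → ℝ → ℝ) : ℝ → ℝ → ℝ := fun x t => deriv (fun y => u y t) x

/-- Time derivative of a function of `(x, t)`. -/
noncomputable def dt (u : ℝ → ℝ → ℝ) : ℝ → ℝ → ℝ := fun x t => deriv (fun s => u x s) t

/-- `u` is of class `C^{2,1}` on `ℝ × I`. -/
def IsC21 (u : ℝ → ℝ → ℝ) (I : Set ℝ) : Prop :=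
  (∀ x, ∀ t ∈ I, DifferentiableAt ℝ (fun y => u y t) x ∧ DifferentiableAt ℝ (fun y => dx u y t) x ∧
    DifferentiableAt ℝ (fun s => u x s) t) ∧
  ContinuousOn (Function.uncurry u) (Set.univ ×ˢ I) ∧
  ContinuousOn (Function.uncurry (dx u)) (Set.univ ×ˢ I) ∧
  ContinuousOn (Function.uncurry (dx (dx u))) (Set.univ ×ˢ I) ∧
  ContinuousOn (Function.uncurry (dt u)) (Set.univ ×ˢ I)

/-- Classical solutions of the viscous Hamilton-Jacobi equation on the circle. -/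
def IsViscousSol (H : ℝ → ℝ → ℝ) (g : ℝ → ℝ) (ε : ℝ) (u : ℝ → ℝ → ℝ) : Prop :=
  (∀ x t, u (x + 1) t = u x t) ∧
  ContinuousOn (Function.uncurry u) (Set.univ ×ˢ Set.Ici 0) ∧
  (∀ x, u x 0 = g x) ∧ IsC21 u (Set.Ioi 0) ∧
  ∀ x, ∀ t ∈ Set.Ioi (0 : ℝ), dt u x t + H x (dx u x t) = ε * dx (dx u) x t

/-- Classical nonnegative solutions of the adjoint equation with terminal datum a point mass. -/
def IsAdjointSol (H : ℝ → ℝ → ℝ) (ε : ℝ) (u : ℝ → ℝ → ℝ) (z T : ℝ) (σ : ℝ → ℝ → ℝ) : Prop :=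
  (∀ x t, σ (x + 1) t = σ x t) ∧ IsC21 σ (Set.Ioo 0 T) ∧
  (∀ x, ∀ t ∈ Set.Ioo 0 T, 0 ≤ σ x t) ∧
  (∀ x, ∀ t ∈ Set.Ioo 0 T,
    -dt σ x t - dx (fun y s => deriv (H y) (dx u y s) * σ y s) x t = ε * dx (dx σ) x t) ∧
  ∀ φ : ℝ → ℝ, Continuous φ → (∀ x, φ (x + 1) = φ x) →
    Filter.Tendsto (fun t => ∫ x in (0 : ℝ)..1, φ x * σ x t) (nhdsWithin T (Set.Iio T)) (nhds (φ z))

end Pool.Agent.P.MP_e9de1a_an
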