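import Mathlib

set_option autoImplicit false

open MeasureTheory Real Filter Topology

namespace Pool.Agent.P.MP_e9de1a_an

/-- The Gaussian weight of total mass one. -/
noncomputable def om (y : ℝ) : ℝ := Real.exp (-π * y ^ 2)

theorem om_pos (y : ℝ) : 0 < om y := Real.exp_pos _

theorem om_cont : Continuous om := by unfold om; fun_prop

theorem om_int : Integrable om := integrable_exp_neg_mul_sq Real.pi_pos

theorem y_om_int : Integrable fun y => y * om y := integrable_mul_exp_neg_mul_sq Real.pi_pos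

theorem integral_om : ∫ y, om y = 1 := by
  unfold om
  rw [integral_gaussian, div_self Real.pi_pos.ne', Real.sqrt_one]

theorem om_deriv (y : ℝ) : HasDerivAt om (-(2 * π) * (y * om y)) y := by
  unfold om
  have h := (((hasDerivAt_pow 2 y).const_mul (-π)).exp)
  convert h using 1
  simp
  ring

/-- Bounded continuous functions. -/
def BC (f : ℝ → ℝ) : Prop := Continuous f ∧ ∃ M, ∀ x, |f x| ≤ M

theorem BC.of_periodic {f : ℝ → ℝ} (hc : Continuous f) (hp : ∀ x, f (x + 1) = f x) : BC f := by
  refine ⟨hc, ?_⟩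
  have h := (Function.Periodic.isBounded_of_continuous (f := f) (c := 1) hp one_ne_zero hc)
  obtain ⟨M, hM⟩ := isBounded_iff_forall_norm_le.mp h
  exact ⟨M, fun x => hM _ ⟨x, rfl⟩⟩

theorem BC.int_mul {f : ℝ → ℝ} (hf : BC f) (x s : ℝ) {w : ℝ → ℝ} (hw : Integrable w) :
    Integrable fun y => f (x - s * y) * w y := by
  obtain ⟨hc, M, hM⟩ := hf
  refine hw.bdd_mul (c := M) ?_ (Eventually.of_forall fun y => hM _)
  exact (hc.comp (by fun_prop)).aestronglyMeasurable

/-- Gaussian smoothing. -/
noncomputable def GS (f : ℝ → ℝ) (x s : ℝ) : ℝ := ∫ y, f (x - s * y) * om y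

theorem P_zero (f : ℝ → ℝ) (x : ℝ) : GS f x 0 = f x := by
  simp [GS, integral_const_mul, integral_om]

theorem P_per {f : ℝ → ℝ} (hp : ∀ x, f (x + 1) = f x) (x s : ℝ) : GS f (x + 1) s = GS f x s := by
  unfold GS
  congr 1
  funext y
  rw [← hp (x - s * y)]
  congr 2
  ring

theorem P_pos {f : ℝ → ℝ} (hf : BC f) (hpos : ∀ x, 0 < f x) (x s : ℝ) : 0 < GS f x s := by
  unfold GS
  rw [integral_pos_iff_support_of_nonneg (fun y => (mul_pos (hpos _) (om_pos y)).le)
    (hf.int_mul x s om_int)]
  have : Function.support (fun y => f (x - s * y) * om y) = Set.univ :=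
    Set.eq_univ_of_forall fun y => (mul_pos (hpos _) (om_pos y)).ne'
  rw [this]
  simp

theorem P_cont {f : ℝ → ℝ} (hf : BC f) : Continuous fun w : ℝ × ℝ => GS f w.1 w.2 := by
  obtain ⟨M, hM⟩ := hf.2
  have hc := hf.1
  refine continuous_of_dominated (bound := fun y => M * om y)
    (fun w => (hf.int_mul w.1 w.2 om_int).aestronglyMeasurable) (fun w => ?_)
    (om_int.const_mul M) (Eventually.of_forall fun y => by fun_prop)
  refine Eventually.of_forall fun y => ?_
  rw [Real.norm_eq_abs, abs_mul, abs_of_pos (om_pos y)]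
  exact mul_le_mul_of_nonneg_right (hM _) (om_pos y).le

theorem P_dx {f f' : ℝ → ℝ} (hf : BC f) (hf' : BC f') (hd : ∀ x, HasDerivAt f (f' x) x)
    (x s : ℝ) : HasDerivAt (fun y => GS f y s) (GS f' x s) x := by
  obtain ⟨M, hM⟩ := hf'.2
  refine (hasDerivAt_integral_of_dominated_loc_of_deriv_le (s := Set.univ) univ_mem
    (F := fun x y => f (x - s * y) * om y) (F' := fun x y => f' (x - s * y) * om y)
    (bound := fun y => M * om y)
    (Eventually.of_forall fun x => (hf.int_mul x s om_int).aestronglyMeasurable)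
    (hf.int_mul x s om_int) (hf'.int_mul x s om_int).aestronglyMeasurable ?_
    (om_int.const_mul M) ?_).2
  · refine Eventually.of_forall fun y x _ => ?_
    rw [Real.norm_eq_abs, abs_mul, abs_of_pos (om_pos y)]
    exact mul_le_mul_of_nonneg_right (hM _) (om_pos y).le
  · refine Eventually.of_forall fun y x _ => ?_
    have h := ((hd (x - s * y)).comp x ((hasDerivAt_id x).sub_const (s * y))).mul_const (om y)
    simpa using h

theorem P_parts {f f' : ℝ → ℝ} (hf : BC f) (hf' : BC f') (hd : ∀ x, HasDerivAt f (f' x) x)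
    (x s : ℝ) : ∫ y, f (x - s * y) * (-(2 * π) * (y * om y)) = s * GS f' x s := by
  have h1 : ∀ y, HasDerivAt (fun y => f (x - s * y)) (-s * f' (x - s * y)) y := by
    intro y
    have h := (hd (x - s * y)).comp y (((hasDerivAt_id y).const_mul s).const_sub x)
    exact h.congr_deriv (by ring)
  have h2 := integral_mul_deriv_eq_deriv_mul_of_integrable (u := fun y => f (x - s * y))
    (u' := fun y => -s * f' (x - s * y)) (v := om) (v' := fun y => -(2 * π) * (y * om y))
    (fun y _ => h1 y) (fun y _ => om_deriv y) (hf.int_mul x s (y_om_int.const_mul _))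
    (by
      have := (hf'.int_mul x s om_int).const_mul (-s)
      refine this.congr (Eventually.of_forall fun y => ?_)
      simp only [Pi.mul_apply]
      ring)
    (hf.int_mul x s om_int)
  rw [h2, GS, ← integral_const_mul, ← integral_neg]
  congr 1
  funext y
  ring

theorem P_ds {f f' f'' : ℝ → ℝ} (hf : BC f) (hf' : BC f') (hf'' : BC f'')
    (hd : ∀ x, HasDerivAt f (f' x) x) (hd' : ∀ x, HasDerivAt f' (f'' x) x)
    (x s : ℝ) : HasDerivAt (fun r => GS f x r) (s / (2 * π) * GS f'' x s) s := by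
  obtain ⟨M, hM⟩ := hf'.2
  have h := (hasDerivAt_integral_of_dominated_loc_of_deriv_le (s := Set.univ) (x₀ := s) univ_mem
    (F := fun r y => f (x - r * y) * om y) (F' := fun r y => f' (x - r * y) * (-(y * om y)))
    (bound := fun y => M * |y * om y|)
    (Eventually.of_forall fun r => (hf.int_mul x r om_int).aestronglyMeasurable)
    (hf.int_mul x s om_int) (hf'.int_mul x s y_om_int.neg).aestronglyMeasurable ?_
    (y_om_int.abs.const_mul M) ?_).2
  · refine h.congr_deriv ?_
    have h2 := P_parts hf' hf'' hd' x s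
    have h3 : ∫ y, f' (x - s * y) * (-(2 * π) * (y * om y)) =
        2 * π * ∫ y, f' (x - s * y) * (-(y * om y)) := by
      rw [← integral_const_mul]
      congr 1
      funext y
      ring
    have hpi := Real.pi_pos
    rw [h3] at h2
    rw [div_mul_eq_mul_div, ← h2]
    generalize (∫ y, f' (x - s * y) * (-(y * om y))) = I
    field_simp
  · refine Eventually.of_forall fun y r _ => ?_
    rw [Real.norm_eq_abs, abs_mul, abs_neg]
    exact mul_le_mul_of_nonneg_right (hM _) (abs_nonneg _)
  · refine Eventually.of_forall fun y r _ => ?_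
    have h := ((hd (x - r * y)).comp r (((hasDerivAt_id r).mul_const y).const_sub x)).mul_const
      (om y)
    exact h.congr_deriv (by ring)

/-- The scale of the heat kernel at time `t`. -/
noncomputable def sc (ε t : ℝ) : ℝ := √(4 * π * ε * t)

theorem sc_cont (ε : ℝ) : Continuous (sc ε) := by unfold sc; fun_prop

theorem sc_pos {ε t : ℝ} (hε : 0 < ε) (ht : 0 < t) : 0 < sc ε t := by
  unfold sc
  have := Real.pi_pos
  positivity

theorem sc_sq {ε t : ℝ} (hε : 0 < ε) (ht : 0 < t) : sc ε t ^ 2 = 4 * π * ε * t := by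
  unfold sc
  have := Real.pi_pos
  exact Real.sq_sqrt (by positivity)

theorem P_dt {f f' f'' : ℝ → ℝ} (hf : BC f) (hf' : BC f') (hf'' : BC f'')
    (hd : ∀ x, HasDerivAt f (f' x) x) (hd' : ∀ x, HasDerivAt f' (f'' x) x)
    {ε t : ℝ} (hε : 0 < ε) (ht : 0 < t) (x : ℝ) :
    HasDerivAt (fun r => GS f x (sc ε r)) (ε * GS f'' x (sc ε t)) t := by
  have hpi := Real.pi_pos
  have h1 : HasDerivAt (sc ε) (4 * π * ε / (2 * sc ε t)) t := by
    have h := ((hasDerivAt_id t).const_mul (4 * π * ε)).sqrt (by simp only [id]; positivity)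
    exact h.congr_deriv (by simp [sc])
  have h2 := (P_ds hf hf' hf'' hd hd' x (sc ε t)).comp t h1
  refine h2.congr_deriv ?_
  have := sc_pos hε ht
  field_simp
  ring

theorem integral_scale (F : ℝ → ℝ) {s : ℝ} (hs : 0 < s) :
    ∫ y, F (0 - s * y) = s⁻¹ * ∫ y, F y := by
  have h := Measure.integral_comp_mul_left F (-s)
  rw [smul_eq_mul, inv_neg, abs_neg, abs_of_pos (inv_pos.mpr hs)] at h
  rw [← h]
  simp

theorem P_at_zero (f : ℝ → ℝ) {s : ℝ} (hs : 0 < s) :
    GS f 0 s = s⁻¹ * ∫ y, f y * Real.exp (-π / s ^ 2 * y ^ 2) := by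
  rw [← integral_scale _ hs, GS]
  congr 1
  funext y
  rw [om]
  congr 2
  field_simp
  ring

theorem P_deriv_at_zero {f f' : ℝ → ℝ} (hf : BC f) (hf' : BC f')
    (hd : ∀ x, HasDerivAt f (f' x) x) {s : ℝ} (hs : 0 < s) :
    GS f' 0 s = 2 * π / s ^ 2 * (s⁻¹ * ∫ y, y * (f y * Real.exp (-π / s ^ 2 * y ^ 2))) := by
  have h := P_parts hf hf' hd 0 s
  rw [← integral_scale _ hs]
  have h2 : ∫ y, f (0 - s * y) * (-(2 * π) * (y * om y)) =
      2 * π / s * ∫ y, (0 - s * y) * (f (0 - s * y) * Real.exp (-π / s ^ 2 * (0 - s * y) ^ 2)) := by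
    rw [← integral_const_mul]
    congr 1
    funext y
    have h3 : -π / s ^ 2 * (0 - s * y) ^ 2 = -π * y ^ 2 := by
      field_simp
      ring
    rw [h3, om]
    field_simp
    ring
  rw [h2] at h
  field_simp
  field_simp at h
  linarith

end Pool.Agent.P.MP_e9de1a_an
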