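import Mathlib
import Pool.Agent.P.MP_e9de1a_an.Defs
import Pool.Agent.P.MP_e9de1a_an.Gauss

set_option autoImplicit false

open MeasureTheory Real Filter Topology

namespace Pool.Agent.P.MP_e9de1a_an

/-! ### Uniqueness by the maximum principle -/

theorem second_deriv_nonpos {f : ℝ → ℝ} {x : ℝ} (hmax : IsLocalMax f x) (hc : ContinuousAt f x) :
    deriv (deriv f) x ≤ 0 := by
  by_contra h
  push Not at h
  have hmin := isLocalMin_of_deriv_deriv_pos h hmax.deriv_eq_zero hc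
  have h1 : f =ᶠ[𝓝 x] fun _ => f x := by
    filter_upwards [hmax, hmin] with y h1 h2 using le_antisymm h1 h2
  have h2 := h1.deriv.deriv_eq
  simp at h2
  linarith

theorem visc_le {H : ℝ → ℝ → ℝ} {g : ℝ → ℝ} {ε : ℝ} (hε : 0 < ε) {u v : ℝ → ℝ → ℝ}
    (hu : IsViscousSol H g ε u) (hv : IsViscousSol H g ε v) (x : ℝ) {t : ℝ} (ht : 0 ≤ t) :
    u x t ≤ v x t := by
  obtain ⟨up, uc, u0, ⟨ud, -⟩, ue⟩ := hu
  obtain ⟨vp, vc, v0, ⟨vd, -⟩, ve⟩ := hv
  have key : ∀ δ : ℝ, 0 < δ → u x t - v x t ≤ δ * t := by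
    intro δ hδ
    let w : ℝ × ℝ → ℝ := fun p => u p.1 p.2 - v p.1 p.2 - δ * p.2
    have hwp : ∀ s, Function.Periodic (fun y => w (y, s)) 1 := fun s y => by
      simp only [w, up, vp]
    have hK : IsCompact (Set.Icc (0 : ℝ) 1 ×ˢ Set.Icc (0 : ℝ) t) := isCompact_Icc.prod isCompact_Icc
    have hsub : Set.Icc (0 : ℝ) 1 ×ˢ Set.Icc (0 : ℝ) t ⊆ Set.univ ×ˢ Set.Ici 0 :=
      Set.prod_mono (Set.subset_univ _) Set.Icc_subset_Ici_self
    have hwc : ContinuousOn w (Set.Icc (0 : ℝ) 1 ×ˢ Set.Icc (0 : ℝ) t) :=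
      ((uc.mono hsub).sub (vc.mono hsub)).sub (by fun_prop)
    obtain ⟨⟨x0, t0⟩, ⟨hx0, ht0⟩, hmax⟩ := hK.exists_isMaxOn
      ⟨(0, 0), ⟨le_rfl, zero_le_one⟩, ⟨le_rfl, ht⟩⟩ hwc
    have hall : ∀ y s, s ∈ Set.Icc (0 : ℝ) t → w (y, s) ≤ w (x0, t0) := by
      intro y s hs
      obtain ⟨y', hy', hy⟩ := (hwp s).exists_mem_Ico₀ one_pos y
      rw [hy]
      exact hmax ⟨Set.Ico_subset_Icc_self hy', hs⟩
    rcases eq_or_lt_of_le ht0.1 with h0 | h0
    · have h1 := hall x t ⟨ht, le_rfl⟩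
      simp only at h0
      simp only [w, ← h0, u0, v0] at h1
      linarith
    · exfalso
      simp only at h0 ht0
      have hm : IsLocalMax (fun y => u y t0 - v y t0) x0 :=
        Eventually.of_forall fun y => by
          have := hall y t0 ht0
          simp only [w] at this
          linarith
      have hd1 : deriv (fun y => u y t0 - v y t0) = fun y => dx u y t0 - dx v y t0 := by
        funext y
        exact deriv_sub (ud y t0 h0).1 (vd y t0 h0).1
      have e1 : dx u x0 t0 = dx v x0 t0 := by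
        have := hm.deriv_eq_zero
        rw [hd1] at this
        linarith
      have e2 : dx (dx u) x0 t0 - dx (dx v) x0 t0 ≤ 0 := by
        have := second_deriv_nonpos hm ((ud x0 t0 h0).1.sub (vd x0 t0 h0).1).continuousAt
        rw [hd1] at this
        rwa [deriv_fun_sub (ud x0 t0 h0).2.1 (vd x0 t0 h0).2.1] at this
      have e3 : 0 ≤ dt u x0 t0 - dt v x0 t0 - δ := by
        have hd : HasDerivAt (fun s => w (x0, s)) (dt u x0 t0 - dt v x0 t0 - δ) t0 := by
          have := ((ud x0 t0 h0).2.2.hasDerivAt.sub (vd x0 t0 h0).2.2.hasDerivAt).sub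
            ((hasDerivAt_id t0).const_mul δ)
          exact this.congr_deriv (by simp [dt])
        have hlm : IsLocalMaxOn (fun s => w (x0, s)) (Set.Icc 0 t0) t0 :=
          eventually_nhdsWithin_of_forall fun s hs => hall x0 s ⟨hs.1, hs.2.trans ht0.2⟩
        have hcone : (0 : ℝ) - t0 ∈ posTangentConeAt (Set.Icc 0 t0) t0 :=
          sub_mem_posTangentConeAt_of_segment_subset (by
            rw [segment_symm, segment_eq_Icc h0.le])
        have := hlm.hasFDerivWithinAt_nonpos hd.hasFDerivAt.hasFDerivWithinAt hcone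
        simp only [ContinuousLinearMap.toSpanSingleton_apply, smul_eq_mul] at this
        nlinarith
      have e4 := ue x0 t0 h0
      have e5 := ve x0 t0 h0
      rw [e1] at e4
      nlinarith
  by_contra h
  push Not at h
  have h1 := key ((u x t - v x t) / (t + 1)) (div_pos (by linarith) (by linarith))
  rw [div_mul_eq_mul_div, le_div_iff₀ (by linarith)] at h1
  nlinarith

theorem visc_unique {H : ℝ → ℝ → ℝ} {g : ℝ → ℝ} {ε : ℝ} (hε : 0 < ε) {u v : ℝ → ℝ → ℝ}
    (hu : IsViscousSol H g ε u) (hv : IsViscousSol H g ε v) (x : ℝ) {t : ℝ} (ht : 0 ≤ t) :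
    u x t = v x t :=
  le_antisymm (visc_le hε hu hv x ht) (visc_le hε hv hu x ht)

/-! ### The Hopf-Cole solution -/

/-- Initial data for the heat equation with three derivatives. -/
structure Init where
  F : ℕ → ℝ → ℝ
  cont : ∀ k, k ≤ 3 → Continuous (F k)
  per : ∀ k x, F k (x + 1) = F k x
  der : ∀ k, k < 3 → ∀ x, HasDerivAt (F k) (F (k + 1) x) x
  pos : ∀ x, 0 < F 0 x

namespace Init

variable (D : Init) (ε : ℝ)

theorem bc {k : ℕ} (hk : k ≤ 3) : BC (D.F k) := BC.of_periodic (D.cont k hk) (D.per k)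

/-- The solution of the heat equation and its space derivatives. -/
noncomputable def V (k : ℕ) (x t : ℝ) : ℝ := GS (D.F k) x (sc ε t)

theorem V_pos (x t : ℝ) : 0 < D.V ε 0 x t := P_pos (D.bc (by norm_num)) D.pos _ _

theorem V_ne (x t : ℝ) : D.V ε 0 x t ≠ 0 := (D.V_pos ε x t).ne'

theorem V_per (k : ℕ) (x t : ℝ) : D.V ε k (x + 1) t = D.V ε k x t := P_per (D.per k) _ _

theorem V_cont {k : ℕ} (hk : k ≤ 3) : Continuous fun w : ℝ × ℝ => D.V ε k w.1 w.2 :=
  (P_cont (D.bc hk)).comp (continuous_fst.prodMk ((sc_cont ε).comp continuous_snd))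

theorem V_dx {k : ℕ} (hk : k < 3) (x t : ℝ) :
    HasDerivAt (fun y => D.V ε k y t) (D.V ε (k + 1) x t) x :=
  P_dx (D.bc hk.le) (D.bc hk) (D.der k hk) _ _

theorem V_dt {ε : ℝ} (hε : 0 < ε) {k : ℕ} (hk : k ≤ 1) (x : ℝ) {t : ℝ} (ht : 0 < t) :
    HasDerivAt (fun s => D.V ε k x s) (ε * D.V ε (k + 2) x t) t :=
  P_dt (D.bc (by omega)) (D.bc (k := k + 1) (by omega)) (D.bc (k := k + 2) (by omega))
    (D.der k (by omega)) (D.der (k + 1) (by omega)) hε ht x

/-- The Hopf-Cole transform. -/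
noncomputable def u (x t : ℝ) : ℝ := -2 * ε * Real.log (D.V ε 0 x t)
/-- Its space derivative. -/
noncomputable def q (x t : ℝ) : ℝ := -2 * ε * (D.V ε 1 x t / D.V ε 0 x t)
/-- Its second space derivative. -/
noncomputable def qx (x t : ℝ) : ℝ :=
  -2 * ε * (D.V ε 2 x t / D.V ε 0 x t - (D.V ε 1 x t / D.V ε 0 x t) ^ 2)
/-- Its third space derivative. -/
noncomputable def qxx (x t : ℝ) : ℝ :=
  -2 * ε * (D.V ε 3 x t / D.V ε 0 x t - 3 * (D.V ε 2 x t / D.V ε 0 x t) *
    (D.V ε 1 x t / D.V ε 0 x t) + 2 * (D.V ε 1 x t / D.V ε 0 x t) ^ 3)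

theorem u_dx (x t : ℝ) : HasDerivAt (fun y => D.u ε y t) (D.q ε x t) x :=
  ((D.V_dx ε (k := 0) (by norm_num) x t).log (D.V_ne ε x t)).const_mul _

theorem q_dx (x t : ℝ) : HasDerivAt (fun y => D.q ε y t) (D.qx ε x t) x := by
  have h := ((D.V_dx ε (k := 1) (by norm_num) x t).div (D.V_dx ε (k := 0) (by norm_num) x t)
    (D.V_ne ε x t)).const_mul (-2 * ε)
  refine h.congr_deriv ?_
  have := D.V_ne ε x t
  simp only [qx]
  field_simp

theorem qx_dx (x t : ℝ) : HasDerivAt (fun y => D.qx ε y t) (D.qxx ε x t) x := by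
  have h1 := (D.V_dx ε (k := 1) (by norm_num) x t).div (D.V_dx ε (k := 0) (by norm_num) x t)
    (D.V_ne ε x t)
  have h2 := (D.V_dx ε (k := 2) (by norm_num) x t).div (D.V_dx ε (k := 0) (by norm_num) x t)
    (D.V_ne ε x t)
  have h := (h2.sub (h1.pow 2)).const_mul (-2 * ε)
  refine h.congr_deriv ?_
  have := D.V_ne ε x t
  simp only [qxx, Pi.div_apply]
  norm_num
  field_simp
  left
  ring

theorem u_dt {ε : ℝ} (hε : 0 < ε) (x : ℝ) {t : ℝ} (ht : 0 < t) :
    HasDerivAt (fun s => D.u ε x s) (ε * D.qx ε x t - D.q ε x t ^ 2 / 2) t := by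
  have h := ((D.V_dt hε (k := 0) (by norm_num) x ht).log (D.V_ne ε x t)).const_mul (-2 * ε)
  refine h.congr_deriv ?_
  have := D.V_ne ε x t
  simp only [qx, q]
  field_simp
  ring

theorem q_dt {ε : ℝ} (hε : 0 < ε) (x : ℝ) {t : ℝ} (ht : 0 < t) :
    HasDerivAt (fun s => D.q ε x s) (ε * D.qxx ε x t - D.q ε x t * D.qx ε x t) t := by
  have h := ((D.V_dt hε (k := 1) (by norm_num) x ht).div (D.V_dt hε (k := 0) (by norm_num) x ht)
    (D.V_ne ε x t)).const_mul (-2 * ε)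
  refine h.congr_deriv ?_
  have := D.V_ne ε x t
  simp only [qx, q, qxx]
  field_simp
  ring

theorem ratio_cont {k : ℕ} (hk : k ≤ 3) :
    Continuous fun w : ℝ × ℝ => D.V ε k w.1 w.2 / D.V ε 0 w.1 w.2 :=
  (D.V_cont ε hk).div (D.V_cont ε (by norm_num)) fun w => D.V_ne ε w.1 w.2

theorem u_cont : Continuous fun w : ℝ × ℝ => D.u ε w.1 w.2 :=
  continuous_const.mul ((D.V_cont ε (by norm_num)).log fun w => D.V_ne ε w.1 w.2)

theorem q_cont : Continuous fun w : ℝ × ℝ => D.q ε w.1 w.2 :=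
  continuous_const.mul (D.ratio_cont ε (by norm_num))

theorem qx_cont : Continuous fun w : ℝ × ℝ => D.qx ε w.1 w.2 :=
  continuous_const.mul ((D.ratio_cont ε (by norm_num)).sub ((D.ratio_cont ε (by norm_num)).pow 2))

theorem qxx_cont : Continuous fun w : ℝ × ℝ => D.qxx ε w.1 w.2 :=
  continuous_const.mul (((D.ratio_cont ε (by norm_num)).sub
    ((continuous_const.mul (D.ratio_cont ε (by norm_num))).mul (D.ratio_cont ε (by norm_num)))).add
    (continuous_const.mul ((D.ratio_cont ε (by norm_num)).pow 3)))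

theorem q_per (x t : ℝ) : D.q ε (x + 1) t = D.q ε x t := by simp only [q, V_per]

theorem qx_per (x t : ℝ) : D.qx ε (x + 1) t = D.qx ε x t := by simp only [qx, V_per]

theorem dx_u : dx (D.u ε) = D.q ε := by
  funext x t
  exact (D.u_dx ε x t).deriv

theorem dx_q : dx (D.q ε) = D.qx ε := by
  funext x t
  exact (D.q_dx ε x t).deriv

theorem isViscousSol {ε : ℝ} (hε : 0 < ε) {g : ℝ → ℝ}
    (hg : ∀ x, D.F 0 x = Real.exp (-g x / (2 * ε))) :
    IsViscousSol (fun _ p => p ^ 2 / 2) g ε (D.u ε) := by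
  have hdt : ∀ x, ∀ t ∈ Set.Ioi (0 : ℝ), dt (D.u ε) x t = ε * D.qx ε x t - D.q ε x t ^ 2 / 2 :=
    fun x t ht => (D.u_dt hε x ht).deriv
  refine ⟨fun x t => by simp only [u, V_per], (D.u_cont ε).continuousOn, fun x => ?_,
    ⟨fun x t ht => ⟨(D.u_dx ε x t).differentiableAt, ?_, (D.u_dt hε x ht).differentiableAt⟩,
      (D.u_cont ε).continuousOn, ?_, ?_, ?_⟩, fun x t ht => ?_⟩
  · simp only [u, V, sc, mul_zero, Real.sqrt_zero, P_zero, hg, Real.log_exp]
    field_simp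
  · rw [dx_u]
    exact (D.q_dx ε x t).differentiableAt
  · rw [dx_u]
    exact (D.q_cont ε).continuousOn
  · rw [dx_u, dx_q]
    exact (D.qx_cont ε).continuousOn
  · refine ContinuousOn.congr (f := fun w : ℝ × ℝ => ε * D.qx ε w.1 w.2 - D.q ε w.1 w.2 ^ 2 / 2)
      ((continuous_const.mul (D.qx_cont ε)).sub
        (((D.q_cont ε).pow 2).div_const 2)).continuousOn ?_
    rintro ⟨x, t⟩ ⟨-, ht⟩
    exact hdt x t ht
  · rw [hdt x t ht, dx_u, dx_q]
    ring

end Init

/-- The initial data attached to `g`. -/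
noncomputable def initOf {g : ℝ → ℝ} (hg : ContDiff ℝ 3 g) (hp : ∀ x, g (x + 1) = g x) (ε : ℝ) :
    Init where
  F k := iteratedDeriv k fun x => Real.exp (-g x / (2 * ε))
  cont k hk := ((hg.neg.div_const _).exp).continuous_iteratedDeriv k (by exact_mod_cast hk)
  per k x := by
    have h := congrFun (iteratedDeriv_comp_add_const k (fun x => Real.exp (-g x / (2 * ε))) 1) x
    simp only [hp] at h
    exact h.symm
  der k hk x := by
    rw [iteratedDeriv_succ]
    exact (((hg.neg.div_const _).exp).differentiable_iteratedDeriv k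
      (by exact_mod_cast hk) x).hasDerivAt
  pos x := by simp [Real.exp_pos]

theorem initOf_zero {g : ℝ → ℝ} (hg : ContDiff ℝ 3 g) (hp : ∀ x, g (x + 1) = g x) (ε x : ℝ) :
    (initOf hg hp ε).F 0 x = Real.exp (-g x / (2 * ε)) := by simp [initOf]

/-- The Gibbs mean. -/
noncomputable def gibbs (φ : ℝ → ℝ) (ε : ℝ) : ℝ :=
  (∫ y, y * Real.exp (-φ y / (2 * ε))) / ∫ y, Real.exp (-φ y / (2 * ε))

theorem q_eq_gibbs {g : ℝ → ℝ} (hg : ContDiff ℝ 3 g) (hp : ∀ x, g (x + 1) = g x) {ε : ℝ}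
    (hε : 0 < ε) : (initOf hg hp ε).q ε 0 (1 / 2) = -2 * gibbs (fun y => g y + y ^ 2) ε := by
  set D := initOf hg hp ε with hD
  have hs := sc_pos hε (by norm_num : (0 : ℝ) < 1 / 2)
  have hs2 := sc_sq hε (by norm_num : (0 : ℝ) < 1 / 2)
  have hpi := Real.pi_pos
  have h0 := P_at_zero (D.F 0) hs
  have h1 := P_deriv_at_zero (D.bc (k := 0) (by norm_num)) (D.bc (k := 1) (by norm_num))
    (D.der 0 (by norm_num)) hs
  have h2 : ∀ y, D.F 0 y * Real.exp (-π / sc ε (1 / 2) ^ 2 * y ^ 2) =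
      Real.exp (-(g y + y ^ 2) / (2 * ε)) := by
    intro y
    rw [hD, initOf_zero, ← Real.exp_add, hs2]
    congr 1
    field_simp
    ring
  simp only [h2] at h0 h1
  simp only [Init.q, Init.V, gibbs]
  rw [h0, h1, hs2, mul_div_assoc, mul_div_mul_left _ _ (inv_ne_zero hs.ne')]
  field_simp
  ring

end Pool.Agent.P.MP_e9de1a_an
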