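import Mathlib
import Pool.Agent.P.MP_e9de1a_an.Visc

set_option autoImplicit false

open MeasureTheory Real Filter Topology

namespace Pool.Agent.P.MP_e9de1a_an

theorem exists_small_mul {f : ℝ → ℝ} (hf : ContDiff ℝ 3 f) (hs : HasCompactSupport f) {η : ℝ}
    (hη : 0 < η) : ∃ r : ℝ, 0 < r ∧ ∀ m : ℕ, m ≤ 3 → ∀ y,
      ‖iteratedFDeriv ℝ m (fun y => r * f y) y‖ ≤ η := by
  have h1 : ∀ m : ℕ, ∃ M : ℝ, 0 ≤ M ∧ (m ≤ 3 → ∀ y, ‖iteratedFDeriv ℝ m f y‖ ≤ M) := by
    intro m
    by_cases hm : m ≤ 3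
    · obtain ⟨M, hM⟩ := (hf.continuous_iteratedFDeriv (m := m)
        (by exact_mod_cast hm)).bounded_above_of_compact_support (hs.iteratedFDeriv m)
      exact ⟨M, (norm_nonneg _).trans (hM 0), fun _ => hM⟩
    · exact ⟨0, le_rfl, fun h => absurd h hm⟩
  choose M hM0 hM using h1
  have hS : ∀ m, m ≤ 3 → M m ≤ M 0 + M 1 + M 2 + M 3 := by
    intro m hm
    have := hM0 0
    have := hM0 1
    have := hM0 2
    have := hM0 3
    interval_cases m <;> linarith
  have hpos : 0 < M 0 + M 1 + M 2 + M 3 + 1 := by linarith [hM0 0, hM0 1, hM0 2, hM0 3]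
  refine ⟨η / (M 0 + M 1 + M 2 + M 3 + 1), div_pos hη hpos, fun m hm y => ?_⟩
  have h2 := iteratedFDeriv_const_smul_apply' (𝕜 := ℝ) (f := f) (x := y) (i := m)
    (a := η / (M 0 + M 1 + M 2 + M 3 + 1)) (hf.of_le (by exact_mod_cast hm)).contDiffAt
  simp only [smul_eq_mul] at h2
  rw [h2, norm_smul, Real.norm_eq_abs, abs_of_pos (div_pos hη hpos), div_mul_eq_mul_div,
    div_le_iff₀ hpos]
  have := hM m hm y
  have := hS m hm
  nlinarith

/-- The cut-off function. -/
noncomputable def chi : ContDiffBump (0 : ℝ) := ⟨1 / 4, 3 / 8, by norm_num, by norm_num⟩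

theorem chi_one {y : ℝ} (h : |y| ≤ 1 / 4) : chi y = 1 :=
  chi.one_of_mem_closedBall (by simpa [chi] using h)

theorem chi_zero {y : ℝ} (h : 3 / 8 ≤ |y|) : chi y = 0 :=
  chi.zero_of_le_dist (by simpa [chi] using h)

/-- The basic length scale. -/
noncomputable def dl (j : ℕ) : ℝ := 1 / 32 * (1 / 2) ^ j
/-- Half-length of the right interval. -/
noncomputable def al (j : ℕ) : ℝ := if Even j then 2 * dl j else dl j
/-- Half-length of the left interval. -/
noncomputable def be (j : ℕ) : ℝ := if Even j then dl j else 2 * dl j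

theorem dl_pos (j : ℕ) : 0 < dl j := by unfold dl; positivity

theorem dl_le (j : ℕ) : dl j ≤ 1 / 32 := by
  unfold dl
  have : (1 / 2 : ℝ) ^ j ≤ 1 := pow_le_one₀ (by norm_num) (by norm_num)
  linarith

theorem dl_lt {i j : ℕ} (h : i < j) : 2 * dl j ≤ dl i := by
  unfold dl
  have : (1 / 2 : ℝ) ^ j ≤ (1 / 2) ^ (i + 1) :=
    pow_le_pow_of_le_one (by norm_num) (by norm_num) h
  rw [pow_succ] at this
  linarith

theorem al_bd (j : ℕ) : dl j ≤ al j ∧ al j ≤ 2 * dl j := by
  have := dl_pos j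
  unfold al
  split_ifs <;> constructor <;> linarith

theorem be_bd (j : ℕ) : dl j ≤ be j ∧ be j ≤ 2 * dl j := by
  have := dl_pos j
  unfold be
  split_ifs <;> constructor <;> linarith

/-- The zero sets. -/
def Z (j : ℕ) : Set ℝ :=
  Set.Icc (1 / 8 - al j) (1 / 8 + al j) ∪ Set.Icc (-1 / 8 - be j) (-1 / 8 + be j)

theorem Z_anti {i j : ℕ} (h : i ≤ j) : Z j ⊆ Z i := by
  rcases h.eq_or_lt with rfl | h
  · exact le_rfl
  have h1 := dl_lt h
  refine Set.union_subset_union (Set.Icc_subset_Icc ?_ ?_) (Set.Icc_subset_Icc ?_ ?_) <;>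
    linarith [(al_bd i).1, (al_bd j).2, (be_bd i).1, (be_bd j).2]

theorem Z_abs {j : ℕ} {y : ℝ} (h : y ∈ Z j) : |y| ≤ 1 / 4 := by
  have := dl_le j
  have := (al_bd j).2
  have := (be_bd j).2
  rw [abs_le]
  rcases h with h | h <;> constructor <;> linarith [h.1, h.2]

/-- The smooth functions with the prescribed zero sets. -/
noncomputable def hh (j : ℕ) (y : ℝ) : ℝ :=
  expNegInvGlue ((y - 1 / 8) ^ 2 - al j ^ 2) * expNegInvGlue ((y + 1 / 8) ^ 2 - be j ^ 2)

theorem hh_nonneg (j : ℕ) (y : ℝ) : 0 ≤ hh j y :=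
  mul_nonneg (expNegInvGlue.nonneg _) (expNegInvGlue.nonneg _)

theorem hh_eq_zero (j : ℕ) (y : ℝ) : hh j y = 0 ↔ y ∈ Z j := by
  have h1 : 0 ≤ al j := (dl_pos j).le.trans (al_bd j).1
  have h2 : 0 ≤ be j := (dl_pos j).le.trans (be_bd j).1
  rw [hh, mul_eq_zero, expNegInvGlue.zero_iff_nonpos, expNegInvGlue.zero_iff_nonpos, sub_nonpos,
    sub_nonpos, sq_le_sq, sq_le_sq, abs_of_nonneg h1, abs_of_nonneg h2, abs_le, abs_le, Z,
    Set.mem_union, Set.mem_Icc, Set.mem_Icc]
  constructor <;> rintro (⟨a, b⟩ | ⟨a, b⟩)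
  · exact Or.inl ⟨by linarith, by linarith⟩
  · exact Or.inr ⟨by linarith, by linarith⟩
  · exact Or.inl ⟨by linarith, by linarith⟩
  · exact Or.inr ⟨by linarith, by linarith⟩

theorem kk_smooth (j : ℕ) : ContDiff ℝ 3 fun y => chi y * hh j y := by
  have h : ContDiff ℝ 3 expNegInvGlue := expNegInvGlue.contDiff (n := 3)
  refine (chi.contDiff (n := 3)).mul ((h.comp ?_).mul (h.comp ?_)) <;> fun_prop

theorem exists_rr (j : ℕ) : ∃ r : ℝ, 0 < r ∧ ∀ m : ℕ, m ≤ 3 → ∀ y,
    ‖iteratedFDeriv ℝ m (fun y => r * (chi y * hh j y)) y‖ ≤ (1 / 2) ^ j :=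
  exists_small_mul (kk_smooth j) chi.hasCompactSupport.mul_right (by positivity)

/-- The small coefficients. -/
noncomputable def rr (j : ℕ) : ℝ := (exists_rr j).choose

theorem rr_pos (j : ℕ) : 0 < rr j := (exists_rr j).choose_spec.1

/-- The terms of the perturbation series. -/
noncomputable def tm (b : Bool) (j : ℕ) (y : ℝ) : ℝ := if b then rr j * (chi y * hh j y) else 0

theorem tm_nonneg (b : Bool) (j : ℕ) (y : ℝ) : 0 ≤ tm b j y := by
  unfold tm
  split_ifs
  · exact mul_nonneg (rr_pos j).le (mul_nonneg chi.nonneg (hh_nonneg j y))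
  · exact le_rfl

theorem tm_smooth (b : Bool) (j : ℕ) : ContDiff ℝ 3 (tm b j) := by
  cases b
  · exact contDiff_const
  · exact contDiff_const.mul (kk_smooth j)

theorem tm_bound (b : Bool) (j m : ℕ) (hm : m ≤ 3) (y : ℝ) :
    ‖iteratedFDeriv ℝ m (tm b j) y‖ ≤ (1 / 2) ^ j := by
  cases b
  · have : tm false j = fun _ => 0 := rfl
    rw [this, iteratedFDeriv_fun_zero]
    simp
  · exact (exists_rr j).choose_spec.2 m hm y

theorem tm_le (b : Bool) (j : ℕ) (y : ℝ) : ‖tm b j y‖ ≤ (1 / 2) ^ j := by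
  simpa using tm_bound b j 0 (by norm_num) y

theorem tm_summable (c : ℕ → Bool) (y : ℝ) : Summable fun j => tm (c j) j y :=
  summable_geometric_two.of_norm_bounded fun j => tm_le _ j y

/-- The perturbation series. -/
noncomputable def S (c : ℕ → Bool) (y : ℝ) : ℝ := ∑' j, tm (c j) j y

theorem S_nonneg (c : ℕ → Bool) (y : ℝ) : 0 ≤ S c y := tsum_nonneg fun j => tm_nonneg _ j y

theorem S_smooth (c : ℕ → Bool) : ContDiff ℝ 3 (S c) :=
  contDiff_tsum (N := 3) (v := fun _ j => (1 / 2) ^ j) (fun j => tm_smooth _ j)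
    (fun _ _ => summable_geometric_two)
    (fun k j y hk => tm_bound _ j k (by exact_mod_cast hk) y)

theorem S_cont (y : ℝ) : Continuous fun c => S c y :=
  continuous_tsum (fun j => (continuous_of_discreteTopology (f := fun b => tm b j y)).comp
    (continuous_apply j)) summable_geometric_two (fun j c => tm_le _ j y)

/-- The profile on one period. -/
noncomputable def B (c : ℕ → Bool) (y : ℝ) : ℝ := S c y - chi y * y ^ 2

theorem B_smooth (c : ℕ → Bool) : ContDiff ℝ 3 (B c) :=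
  (S_smooth c).sub ((chi.contDiff (n := 3)).mul (by fun_prop))

theorem B_zero (c : ℕ → Bool) {y : ℝ} (h : 3 / 8 ≤ |y|) : B c y = 0 := by
  simp [B, S, tm, chi_zero h]

/-- The initial datum. -/
noncomputable def gg (c : ℕ → Bool) (y : ℝ) : ℝ := B c (y - round y)

theorem gg_per (c : ℕ → Bool) (y : ℝ) : gg c (y + 1) = gg c y := by
  simp [gg, round_add_one]

theorem round_eq_of {y : ℝ} {n : ℤ} (h : |y - n| < 1 / 2) : round y = n := by
  rw [round_eq, Int.floor_eq_iff]
  rw [abs_lt] at h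
  constructor <;> linarith [h.1, h.2]

theorem gg_smooth (c : ℕ → Bool) : ContDiff ℝ 3 (gg c) := by
  rw [contDiff_iff_contDiffAt]
  intro y
  have hc : Continuous fun w : ℝ => |w - round y| := by fun_prop
  rcases (abs_sub_round y).eq_or_lt with h | h
  · refine (contDiffAt_const (c := 0)).congr_of_eventuallyEq ?_
    filter_upwards [Metric.ball_mem_nhds y (by norm_num : (0 : ℝ) < 1 / 8)] with w hw
    apply B_zero
    rw [Metric.mem_ball, Real.dist_eq] at hw
    have h1 := round_le y (round w)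
    have h2 := abs_sub_le y w (round w)
    rw [abs_sub_comm] at hw
    linarith
  · refine (((B_smooth c).comp (contDiff_id.sub contDiff_const (g := fun _ => (round y : ℝ)))
      ).contDiffAt).congr_of_eventuallyEq ?_
    filter_upwards [hc.continuousAt.eventually (gt_mem_nhds h)] with w hw
    simp [gg, round_eq_of hw]

/-- The action. -/
noncomputable def ph (c : ℕ → Bool) (y : ℝ) : ℝ := gg c y + y ^ 2

theorem ph_cont (c : ℕ → Bool) : Continuous (ph c) :=
  (gg_smooth c).continuous.add (by fun_prop)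

theorem chi_sq_le (y : ℝ) : chi y * y ^ 2 ≤ y ^ 2 := by
  have := chi.le_one (x := y)
  nlinarith [sq_nonneg y]

theorem ph_nonneg (c : ℕ → Bool) (y : ℝ) : 0 ≤ ph c y := by
  have h1 := S_nonneg c (y - round y)
  have h2 := chi_sq_le (y - round y)
  have h3 : (y - round y) ^ 2 ≤ y ^ 2 := by
    rw [sq_le_sq]
    simpa using round_le y 0
  simp only [ph, gg, B]
  linarith

theorem ph_ge (c : ℕ → Bool) (y : ℝ) : y ^ 2 - 1 / 4 ≤ ph c y := by
  have h1 := S_nonneg c (y - round y)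
  have h2 := chi_sq_le (y - round y)
  have h3 : (y - round y) ^ 2 ≤ (1 / 2) ^ 2 := by
    rw [sq_le_sq]
    simpa using abs_sub_round y
  simp only [ph, gg, B]
  linarith

theorem ph_eq_zero {c : ℕ → Bool} {J : ℕ} (hJ : c J = true) (hc : ∀ j, J < j → c j = false)
    (y : ℝ) : ph c y = 0 ↔ y ∈ Z J := by
  constructor
  · intro h
    have h1 := S_nonneg c (y - round y)
    by_cases hy : |y| < 1 / 2
    · have h0 : round y = 0 := round_eq_of (by simpa using hy)
      simp only [ph, gg, B, h0, Int.cast_zero, sub_zero] at h h1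
      have h2 := chi_sq_le y
      have h3 : S c y = 0 := by linarith
      have h4 : tm (c J) J y ≤ S c y :=
        (tm_summable c y).le_tsum J fun j _ => tm_nonneg _ j y
      have h5 : tm (c J) J y = 0 := le_antisymm (by linarith) (tm_nonneg _ _ _)
      simp only [tm, hJ, if_true, mul_eq_zero, (rr_pos J).ne', false_or] at h5
      rcases h5 with h5 | h5
      · rw [h5, h3] at h
        have h6 : y = 0 := by simpa using h
        rw [h6, chi_one (by norm_num)] at h5
        exact absurd h5 one_ne_zero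
      · exact (hh_eq_zero J y).mp h5
    · exfalso
      push Not at hy
      have h2 : chi (y - round y) * (y - round y) ^ 2 ≤ (3 / 8) ^ 2 := by
        by_cases h3 : 3 / 8 ≤ |y - round y|
        · rw [chi_zero h3]
          norm_num
        · refine (chi_sq_le _).trans ?_
          rw [sq_le_sq, abs_of_pos (by norm_num : (0 : ℝ) < 3 / 8)]
          exact (not_le.mp h3).le
      have h4 : (1 / 2 : ℝ) ^ 2 ≤ y ^ 2 := by
        rw [sq_le_sq]
        simpa using hy
      simp only [ph, gg, B] at h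
      linarith
  · intro h
    have h1 := Z_abs h
    have h0 : round y = 0 := round_eq_of (by simp only [Int.cast_zero, sub_zero]; linarith)
    have h2 : ∀ j, tm (c j) j y = 0 := by
      intro j
      rcases le_or_gt j J with hj | hj
      · simp [tm, (hh_eq_zero j y).mpr (Z_anti hj h)]
      · simp [tm, hc j hj]
    simp [ph, gg, B, S, h0, h2, chi_one h1]

theorem wt_le (c : ℕ → Bool) {ε : ℝ} (h0 : 0 < ε) (h1 : ε ≤ 1) (y : ℝ) :
    Real.exp (-ph c y / (2 * ε)) ≤ Real.exp (1 / 8) * Real.exp (-(1 / 2) * y ^ 2) := by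
  rw [← Real.exp_add]
  apply Real.exp_le_exp.mpr
  have := ph_nonneg c y
  have := ph_ge c y
  rw [div_le_iff₀ (by linarith)]
  nlinarith

theorem bd0_int : Integrable fun y : ℝ => Real.exp (1 / 8) * Real.exp (-(1 / 2) * y ^ 2) :=
  (integrable_exp_neg_mul_sq (by norm_num)).const_mul _

theorem bd1_int : Integrable fun y : ℝ => Real.exp (1 / 8) * |y * Real.exp (-(1 / 2) * y ^ 2)| :=
  (integrable_mul_exp_neg_mul_sq (by norm_num)).abs.const_mul _

theorem wt0_le (c : ℕ → Bool) {ε : ℝ} (h0 : 0 < ε) (h1 : ε ≤ 1) (y : ℝ) :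
    ‖Real.exp (-ph c y / (2 * ε))‖ ≤ Real.exp (1 / 8) * Real.exp (-(1 / 2) * y ^ 2) := by
  rw [Real.norm_eq_abs, abs_of_pos (Real.exp_pos _)]
  exact wt_le c h0 h1 y

theorem wt1_le (c : ℕ → Bool) {ε : ℝ} (h0 : 0 < ε) (h1 : ε ≤ 1) (y : ℝ) :
    ‖y * Real.exp (-ph c y / (2 * ε))‖ ≤
      Real.exp (1 / 8) * |y * Real.exp (-(1 / 2) * y ^ 2)| := by
  rw [Real.norm_eq_abs, abs_mul, abs_mul, abs_of_pos (Real.exp_pos _), abs_of_pos (Real.exp_pos _)]
  have := mul_le_mul_of_nonneg_left (wt_le c h0 h1 y) (abs_nonneg y)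
  linarith

theorem wt_cont (c : ℕ → Bool) (ε : ℝ) : Continuous fun y => Real.exp (-ph c y / (2 * ε)) :=
  ((ph_cont c).neg.div_const _).rexp

theorem gibbs_cont {ε : ℝ} (h0 : 0 < ε) (h1 : ε ≤ 1) : Continuous fun c => gibbs (ph c) ε := by
  have hc : ∀ y, Continuous fun c => Real.exp (-ph c y / (2 * ε)) := fun y =>
    (((((S_cont _).sub continuous_const).add continuous_const).neg).div_const _).rexp
  refine Continuous.div ?_ ?_ fun c => ?_
  · exact continuous_of_dominated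
      (fun c => (continuous_id.mul (wt_cont c ε)).aestronglyMeasurable)
      (fun c => Eventually.of_forall (wt1_le c h0 h1)) bd1_int
      (Eventually.of_forall fun y => continuous_const.mul (hc y))
  · exact continuous_of_dominated (fun c => (wt_cont c ε).aestronglyMeasurable)
      (fun c => Eventually.of_forall (wt0_le c h0 h1)) bd0_int (Eventually.of_forall hc)
  · exact (integral_exp_pos (bd0_int.mono' (wt_cont c ε).aestronglyMeasurable
      (Eventually.of_forall (wt0_le c h0 h1)))).ne'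

theorem wt_tendsto {c : ℕ → Bool} {J : ℕ} (hJ : c J = true) (hc : ∀ j, J < j → c j = false)
    (y : ℝ) : Tendsto (fun ε : ℝ => Real.exp (-ph c y / (2 * ε))) (𝓝[>] 0)
      (𝓝 ((Z J).indicator (fun _ => 1) y)) := by
  by_cases hy : y ∈ Z J
  · simp [Set.indicator_of_mem hy, (ph_eq_zero hJ hc y).mpr hy]
  · rw [Set.indicator_of_notMem hy]
    have h1 : 0 < ph c y :=
      lt_of_le_of_ne (ph_nonneg c y) fun h => hy ((ph_eq_zero hJ hc y).mp h.symm)
    refine Real.tendsto_exp_atBot.comp ?_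
    have h2 : Tendsto (fun ε : ℝ => -(ph c y / 2) * ε⁻¹) (𝓝[>] 0) atBot :=
      tendsto_inv_nhdsGT_zero.const_mul_atTop_of_neg (by linarith)
    refine h2.congr fun ε => ?_
    ring

theorem integral_Z (J : ℕ) {f : ℝ → ℝ} (hf : Continuous f) :
    ∫ y, f y * (Z J).indicator (fun _ => (1 : ℝ)) y =
      (∫ y in (1 / 8 - al J)..(1 / 8 + al J), f y) + ∫ y in (-1 / 8 - be J)..(-1 / 8 + be J), f y := by
  have h1 := dl_le J
  have h2 := dl_pos J
  obtain ⟨h3, h4⟩ := al_bd J
  obtain ⟨h5, h6⟩ := be_bd J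
  have h7 : (fun y => f y * (Z J).indicator (fun _ => (1 : ℝ)) y) = (Z J).indicator f := by
    funext y
    by_cases hy : y ∈ Z J <;> simp [hy]
  rw [h7, Z, integral_indicator (measurableSet_Icc.union measurableSet_Icc),
    setIntegral_union ?_ measurableSet_Icc hf.integrableOn_Icc hf.integrableOn_Icc,
    integral_Icc_eq_integral_Ioc, integral_Icc_eq_integral_Ioc,
    intervalIntegral.integral_of_le (by linarith), intervalIntegral.integral_of_le (by linarith)]
  rw [Set.disjoint_left]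
  intro y hy1 hy2
  linarith [hy1.1, hy2.2]

theorem gibbs_tendsto {c : ℕ → Bool} {J : ℕ} (hJ : c J = true) (hc : ∀ j, J < j → c j = false) :
    Tendsto (gibbs (ph c)) (𝓝[>] 0) (𝓝 (if Even J then 1 / 24 else -1 / 24)) := by
  have hI : Set.Ioo (0 : ℝ) 1 ∈ 𝓝[>] (0 : ℝ) := Ioo_mem_nhdsGT one_pos
  have h1 := tendsto_integral_filter_of_dominated_convergence (μ := volume) (l := 𝓝[>] (0 : ℝ))
    (F := fun ε y => y * Real.exp (-ph c y / (2 * ε)))
    (f := fun y => y * (Z J).indicator (fun _ => 1) y) _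
    (Eventually.of_forall fun ε => (continuous_id.mul (wt_cont c ε)).aestronglyMeasurable)
    (by
      filter_upwards [hI] with ε hε
      exact Eventually.of_forall (wt1_le c hε.1 hε.2.le))
    bd1_int (Eventually.of_forall fun y => (wt_tendsto hJ hc y).const_mul y)
  have h2 := tendsto_integral_filter_of_dominated_convergence (μ := volume) (l := 𝓝[>] (0 : ℝ))
    (F := fun ε y => Real.exp (-ph c y / (2 * ε)))
    (f := fun y => 1 * (Z J).indicator (fun _ => 1) y) _
    (Eventually.of_forall fun ε => (wt_cont c ε).aestronglyMeasurable)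
    (by
      filter_upwards [hI] with ε hε
      exact Eventually.of_forall (wt0_le c hε.1 hε.2.le))
    bd0_int (Eventually.of_forall fun y => by simpa using wt_tendsto hJ hc y)
  rw [integral_Z J (f := fun y => y) continuous_id, integral_id, integral_id] at h1
  rw [integral_Z J (f := fun _ => 1) continuous_const] at h2
  simp only [intervalIntegral.integral_const, smul_eq_mul, mul_one] at h2
  have hd := dl_pos J
  have h3 := h1.div h2 (by linarith [(al_bd J).1, (be_bd J).1])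
  have h4 : (((1 / 8 + al J) ^ 2 - (1 / 8 - al J) ^ 2) / 2 +
      ((-1 / 8 + be J) ^ 2 - (-1 / 8 - be J) ^ 2) / 2) /
      (1 / 8 + al J - (1 / 8 - al J) + (-1 / 8 + be J - (-1 / 8 - be J))) =
      if Even J then 1 / 24 else -1 / 24 := by
    rw [div_eq_iff (by linarith [(al_bd J).1, (be_bd J).1])]
    unfold al be
    split_ifs <;> ring
  rw [h4] at h3
  exact h3

/-- Truncation with prescribed top index. -/
def trunc (c : ℕ → Bool) (J : ℕ) : ℕ → Bool := fun j => if j < J then c j else decide (j = J)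

theorem trunc_tendsto (c : ℕ → Bool) {J : ℕ → ℕ} (hJ : ∀ m, m ≤ J m) :
    Tendsto (fun m => trunc c (J m)) atTop (𝓝 c) := by
  rw [tendsto_pi_nhds]
  intro j
  refine tendsto_const_nhds.congr' ?_
  filter_upwards [eventually_gt_atTop j] with m hm
  simp [trunc, hm.trans_le (hJ m)]

theorem trunc_gibbs (c : ℕ → Bool) (J : ℕ) :
    Tendsto (gibbs (ph (trunc c J))) (𝓝[>] 0) (𝓝 (if Even J then 1 / 24 else -1 / 24)) :=
  gibbs_tendsto (by simp [trunc]) fun j hj => by simp [trunc, hj.ne', not_lt.mpr hj.le]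

theorem open_dense {U : Set ℝ} (hU : IsOpen U) {J : ℕ → ℕ} (hJ : ∀ m, m ≤ J m)
    (hJU : ∀ m, (if Even (J m) then 1 / 24 else -1 / 24 : ℝ) ∈ U) (n : ℕ) :
    IsOpen {c : ℕ → Bool | ∃ ε ∈ Set.Ioo (0 : ℝ) (1 / (n + 1)), gibbs (ph c) ε ∈ U} ∧
    Dense {c : ℕ → Bool | ∃ ε ∈ Set.Ioo (0 : ℝ) (1 / (n + 1)), gibbs (ph c) ε ∈ U} := by
  constructor
  · have : {c : ℕ → Bool | ∃ ε ∈ Set.Ioo (0 : ℝ) (1 / (n + 1)), gibbs (ph c) ε ∈ U} =
        ⋃ ε ∈ Set.Ioo (0 : ℝ) (1 / (n + 1)), (fun c => gibbs (ph c) ε) ⁻¹' U := by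
      ext c
      simp
    rw [this]
    refine isOpen_biUnion fun ε hε => hU.preimage (gibbs_cont hε.1 (hε.2.le.trans ?_))
    rw [div_le_one (by positivity)]
    linarith [(Nat.cast_nonneg n : (0 : ℝ) ≤ n)]
  · intro c
    refine mem_closure_of_tendsto (trunc_tendsto c hJ) (Eventually.of_forall fun m => ?_)
    have h1 := (trunc_gibbs c (J m)).eventually (hU.mem_nhds (hJU m))
    have h2 : Set.Ioo (0 : ℝ) (1 / (n + 1)) ∈ 𝓝[>] (0 : ℝ) := Ioo_mem_nhdsGT (by positivity)
    obtain ⟨ε, h3, h4⟩ := (h1.and h2).exists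
    exact ⟨ε, h4, h3⟩

theorem frequently_of {p : ℝ → Prop} (h : ∀ n : ℕ, ∃ ε ∈ Set.Ioo (0 : ℝ) (1 / (n + 1)), p ε) :
    ∃ᶠ ε in 𝓝[>] (0 : ℝ), p ε := by
  rw [(nhdsGT_basis (0 : ℝ)).frequently_iff]
  intro δ hδ
  obtain ⟨n, hn⟩ := exists_nat_one_div_lt hδ
  obtain ⟨ε, h1, h2⟩ := h n
  exact ⟨ε, ⟨h1.1, h1.2.trans hn⟩, h2⟩

theorem exists_bad_g : ∃ g : ℝ → ℝ, ContDiff ℝ 3 g ∧ (∀ x, g (x + 1) = g x) ∧
    (∃ᶠ ε in 𝓝[>] (0 : ℝ), 1 / 48 < gibbs (fun y => g y + y ^ 2) ε) ∧
    (∃ᶠ ε in 𝓝[>] (0 : ℝ), gibbs (fun y => g y + y ^ 2) ε < -1 / 48) := by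
  have h1 := open_dense (U := Set.Ioi (1 / 48)) isOpen_Ioi (J := fun m => 2 * m)
    (fun m => by omega) (fun m => by simp; norm_num)
  have h2 := open_dense (U := Set.Iio (-1 / 48)) isOpen_Iio (J := fun m => 2 * m + 1)
    (fun m => by omega) (fun m => by simp; norm_num)
  have h3 := dense_iInter_of_isOpen (fun n => (h1 n).1.inter (h2 n).1)
    (fun n => (h1 n).2.inter_of_isOpen_left (h2 n).2 (h1 n).1)
  obtain ⟨c, hc⟩ := h3.nonempty
  rw [Set.mem_iInter] at hc
  exact ⟨gg c, gg_smooth c, gg_per c, frequently_of fun n => (hc n).1,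
    frequently_of fun n => (hc n).2⟩

end Pool.Agent.P.MP_e9de1a_an
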