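import Mathlib
import Pool.Agent.P.MP_e9de1a_an.Gauss

set_option autoImplicit false

open MeasureTheory Real Filter Topology

namespace Pool.Agent.P.MP_e9de1a_an

/-- The terms of the Fourier series of the derivatives of the periodic heat kernel. -/
noncomputable def kt (j : ℕ) (n : ℤ) (x τ : ℝ) : ℝ :=
  (2 * π * n) ^ j * Real.exp (-(2 * π * n) ^ 2 * τ) * Real.cos (2 * π * n * x + j * (π / 2))

/-- The derivatives of the periodic heat kernel. -/
noncomputable def K (j : ℕ) (x τ : ℝ) : ℝ := ∑' n : ℤ, kt j n x τ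

/-- The bound for the terms. -/
noncomputable def kb (j : ℕ) (τ0 : ℝ) (n : ℤ) : ℝ :=
  (2 * π) ^ j * ((|n| ^ j : ℝ) * Real.exp (-π * (4 * π * τ0 * n ^ 2 - 2 * 0 * |n|)))

theorem kb_summable (j : ℕ) {τ0 : ℝ} (h : 0 < τ0) : Summable (kb j τ0) :=
  (summable_pow_mul_jacobiTheta₂_term_bound 0 (T := 4 * π * τ0)
    (by have := Real.pi_pos; positivity) j).mul_left _

theorem kt_le (j : ℕ) (n : ℤ) (x : ℝ) {τ τ0 : ℝ} (h : τ0 ≤ τ) : ‖kt j n x τ‖ ≤ kb j τ0 n := by
  have hpi := Real.pi_pos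
  rw [Real.norm_eq_abs, kt, kb, abs_mul, abs_mul, abs_pow, abs_mul, abs_of_pos (Real.exp_pos _),
    abs_of_pos (by positivity : 0 < 2 * π), mul_pow]
  have h1 : Real.exp (-(2 * π * n) ^ 2 * τ) ≤
      Real.exp (-π * (4 * π * τ0 * n ^ 2 - 2 * 0 * |n|)) := by
    apply Real.exp_le_exp.mpr
    have : 0 ≤ (2 * π * n) ^ 2 := by positivity
    nlinarith
  have h2 := Real.abs_cos_le_one (2 * π * n * x + j * (π / 2))
  calc _ ≤ (2 * π) ^ j * |(n : ℝ)| ^ j * Real.exp (-π * (4 * π * τ0 * n ^ 2 - 2 * 0 * |n|)) * 1 := by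
        gcongr
    _ = _ := by push_cast; ring

theorem kt_dx (j : ℕ) (n : ℤ) (x τ : ℝ) :
    HasDerivAt (fun y => kt j n y τ) (kt (j + 1) n x τ) x := by
  have h := ((((hasDerivAt_id x).const_mul (2 * π * n)).add_const (j * (π / 2))).cos).const_mul
    ((2 * π * n) ^ j * Real.exp (-(2 * π * n) ^ 2 * τ))
  refine h.congr_deriv ?_
  have h2 : 2 * π * n * x + ((j + 1 : ℕ) : ℝ) * (π / 2) = 2 * π * n * x + j * (π / 2) + π / 2 := by
    push_cast
    ring
  rw [kt, h2, Real.cos_add_pi_div_two]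
  simp only [id]
  ring

theorem kt_dt (j : ℕ) (n : ℤ) (x τ : ℝ) :
    HasDerivAt (fun r => kt j n x r) (kt (j + 2) n x τ) τ := by
  have h := ((((hasDerivAt_id τ).const_mul (-(2 * π * n) ^ 2)).exp).const_mul
    ((2 * π * n) ^ j)).mul_const (Real.cos (2 * π * n * x + j * (π / 2)))
  refine h.congr_deriv ?_
  have h2 : 2 * π * n * x + ((j + 2 : ℕ) : ℝ) * (π / 2) = 2 * π * n * x + j * (π / 2) + π := by
    push_cast
    ring
  rw [kt, h2, Real.cos_add_pi]
  simp only [id]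
  ring

theorem kt_summable (j : ℕ) (x : ℝ) {τ : ℝ} (h : 0 < τ) : Summable fun n => kt j n x τ :=
  (kb_summable j h).of_norm_bounded fun n => kt_le j n x le_rfl

theorem K_dx (j : ℕ) (x : ℝ) {τ : ℝ} (h : 0 < τ) :
    HasDerivAt (fun y => K j y τ) (K (j + 1) x τ) x :=
  hasDerivAt_tsum (kb_summable (j + 1) h) (fun n y => kt_dx j n y τ)
    (fun n y => kt_le (j + 1) n y le_rfl) (kt_summable j x h) x

theorem K_dt (j : ℕ) (x : ℝ) {τ : ℝ} (h : 0 < τ) :
    HasDerivAt (fun r => K j x r) (K (j + 2) x τ) τ :=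
  hasDerivAt_tsum_of_isPreconnected (t := Set.Ioi (τ / 2))
    (kb_summable (j + 2) (half_pos h)) isOpen_Ioi isPreconnected_Ioi
    (fun n r _ => kt_dt j n x r) (fun n r hr => kt_le (j + 2) n x (le_of_lt hr))
    (half_lt_self h) (kt_summable j x h) (half_lt_self h)

theorem K_cont (j : ℕ) (x : ℝ) {τ : ℝ} (h : 0 < τ) :
    ContinuousAt (fun w : ℝ × ℝ => K j w.1 w.2) (x, τ) := by
  have h1 : ContinuousOn (fun w : ℝ × ℝ => K j w.1 w.2) {w | τ / 2 < w.2} :=
    continuousOn_tsum (fun n => Continuous.continuousOn (by unfold kt; fun_prop))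
      (kb_summable j (half_pos h)) (fun n w hw => kt_le j n w.1 (le_of_lt hw))
  exact h1.continuousAt ((isOpen_lt continuous_const continuous_snd).mem_nhds (half_lt_self h))

theorem K_per (j : ℕ) (x τ : ℝ) : K j (x + 1) τ = K j x τ := by
  unfold K kt
  congr 1
  funext n
  have : 2 * π * n * (x + 1) + j * (π / 2) = 2 * π * n * x + j * (π / 2) + n * (2 * π) := by ring
  rw [this, Real.cos_add_int_mul_two_pi]

/-- The Gaussian of scale `s`. -/
noncomputable def gs (s y : ℝ) : ℝ := s⁻¹ * Real.exp (-π / s ^ 2 * y ^ 2)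

theorem K_zero_eq (x : ℝ) {ε t : ℝ} (hε : 0 < ε) (ht : 0 < t) :
    K 0 x (ε * t) = ∑' n : ℤ, gs (sc ε t) (x + n) := by
  have hs := sc_pos hε ht
  have hs2 := sc_sq hε ht
  set s := sc ε t with hsdef
  have ha : 0 < (((s ^ 2 : ℝ) : ℂ)).re := by
    rw [Complex.ofReal_re]
    positivity
  have h := Complex.tsum_exp_neg_quadratic ha (-(Complex.I * x))
  have hsum : Summable fun n : ℤ => Complex.exp
      (-π * ((s ^ 2 : ℝ) : ℂ) * n ^ 2 + 2 * π * (-(Complex.I * x)) * n) := by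
    refine (kb_summable 0 (mul_pos hε ht)).of_norm_bounded fun n => ?_
    rw [Complex.norm_exp, kb, hs2]
    apply le_of_eq
    simp only [pow_zero, one_mul]
    congr 1
    simp [pow_two]
    ring
  have h1 := congrArg Complex.re h
  rw [Complex.re_tsum hsum] at h1
  have h2 : ∀ n : ℤ, (Complex.exp
      (-π * ((s ^ 2 : ℝ) : ℂ) * n ^ 2 + 2 * π * (-(Complex.I * x)) * n)).re = kt 0 n x (ε * t) := by
    intro n
    rw [Complex.exp_re, kt, hs2]
    simp only [pow_zero, one_mul, Nat.cast_zero, zero_mul, add_zero]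
    congr 1
    · congr 1
      simp [pow_two]
      ring
    · rw [← Real.cos_neg]
      congr 1
      simp [pow_two]
      ring
  simp only [h2] at h1
  rw [K, h1]
  have h3 : (((s ^ 2 : ℝ) : ℂ)) ^ (1 / 2 : ℂ) = (s : ℂ) := by
    have h4 := Complex.ofReal_cpow (x := s ^ 2) (by positivity) (1 / 2)
    rw [← Real.sqrt_eq_rpow, Real.sqrt_sq hs.le] at h4
    rw [h4]
    norm_num
  have h5 : ∀ n : ℤ, Complex.exp (-π / ((s ^ 2 : ℝ) : ℂ) *
      (n + Complex.I * (-(Complex.I * x))) ^ 2) =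
      ((Real.exp (-π / s ^ 2 * (x + n) ^ 2) : ℝ) : ℂ) := by
    intro n
    rw [Complex.ofReal_exp]
    congr 1
    push_cast
    rw [mul_neg, ← mul_assoc, Complex.I_mul_I]
    ring
  rw [h3]
  simp only [h5]
  rw [← Complex.ofReal_tsum, ← Complex.ofReal_one, ← Complex.ofReal_div, ← Complex.ofReal_mul,
    Complex.ofReal_re, one_div, ← tsum_mul_left]
  rfl

theorem gs_nonneg {s : ℝ} (hs : 0 < s) (y : ℝ) : 0 ≤ gs s y := by
  unfold gs
  positivity

theorem K_nonneg (x : ℝ) {ε t : ℝ} (hε : 0 < ε) (ht : 0 < t) : 0 ≤ K 0 x (ε * t) := by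
  rw [K_zero_eq x hε ht]
  exact tsum_nonneg fun n => gs_nonneg (sc_pos hε ht) _

theorem gs_int {s : ℝ} (hs : 0 < s) : Integrable (gs s) := by
  have h := (integrable_exp_neg_mul_sq (b := π / s ^ 2)
    (div_pos Real.pi_pos (pow_pos hs 2))).const_mul s⁻¹
  refine h.congr (Eventually.of_forall fun y => ?_)
  simp only [gs, neg_div]

theorem per_int {φ : ℝ → ℝ} (hp : ∀ x, φ (x + 1) = φ x) (x : ℝ) (n : ℤ) : φ (x + n) = φ x := by
  have h : Function.Periodic φ 1 := hp
  simpa using h.int_mul n x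

theorem integral_K {φ : ℝ → ℝ} (hc : Continuous φ) (hp : ∀ x, φ (x + 1) = φ x) {ε t : ℝ}
    (hε : 0 < ε) (ht : 0 < t) :
    ∫ x in (0 : ℝ)..1, φ x * K 0 x (ε * t) = GS φ 0 (sc ε t) := by
  have hs := sc_pos hε ht
  set s := sc ε t with hsdef
  obtain ⟨-, M, hM⟩ := BC.of_periodic hc hp
  have hint : Integrable fun y => φ y * gs s y :=
    (gs_int hs).bdd_mul (c := M) hc.aestronglyMeasurable (Eventually.of_forall fun y => hM _)
  have h1 := hint.hasSum_intervalIntegral_comp_add_int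
  have h2 := hint.norm.hasSum_intervalIntegral_comp_add_int
  simp only [intervalIntegral.integral_of_le zero_le_one] at h1 h2 ⊢
  have h3 := hasSum_integral_of_summable_integral_norm
    (μ := volume.restrict (Set.Ioc (0 : ℝ) 1)) (F := fun (n : ℤ) x => φ (x + n) * gs s (x + n))
    (fun n => (hint.comp_add_right (n : ℝ)).integrableOn) h2.summable
  have h4 := h1.unique h3
  rw [P_at_zero φ hs, ← integral_const_mul]
  have h5 : (fun y => s⁻¹ * (φ y * Real.exp (-π / s ^ 2 * y ^ 2))) = fun y => φ y * gs s y := by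
    funext y
    rw [gs]
    ring
  rw [h5, h4]
  congr 1
  funext x
  rw [K_zero_eq x hε ht, ← tsum_mul_left]
  simp only [per_int hp]
  rfl

theorem K_delta {φ : ℝ → ℝ} (hc : Continuous φ) (hp : ∀ x, φ (x + 1) = φ x) {ε : ℝ}
    (hε : 0 < ε) (T : ℝ) :
    Tendsto (fun t => ∫ x in (0 : ℝ)..1, φ x * K 0 x (ε * (T - t))) (𝓝[<] T) (𝓝 (φ 0)) := by
  have h1 : Continuous fun t => GS φ 0 (sc ε (T - t)) :=
    (P_cont (BC.of_periodic hc hp)).comp
      (continuous_const.prodMk ((sc_cont ε).comp (continuous_const.sub continuous_id)))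
  have h2 : Tendsto (fun t => GS φ 0 (sc ε (T - t))) (𝓝[<] T) (𝓝 (GS φ 0 (sc ε (T - T)))) :=
    (h1.tendsto T).mono_left nhdsWithin_le_nhds
  have h3 : GS φ 0 (sc ε (T - T)) = φ 0 := by simp [sc, P_zero]
  rw [h3] at h2
  refine h2.congr' ?_
  filter_upwards [self_mem_nhdsWithin] with t ht
  exact (integral_K hc hp hε (sub_pos.mpr ht)).symm

end Pool.Agent.P.MP_e9de1a_an
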