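import Mathlib
import Pool.Agent.P.MP_e9de1a_an.Visc
import Pool.Agent.P.MP_e9de1a_an.Kernel

set_option autoImplicit false

open MeasureTheory Real Filter Topology

namespace Pool.Agent.P.MP_e9de1a_an

theorem delta_moving {κ : ℝ → ℝ → ℝ} {z T : ℝ} (hT : 0 < T)
    (hc : ∀ t ∈ Set.Ioo 0 T, Continuous fun x => κ x t)
    (hpos : ∀ x, ∀ t ∈ Set.Ioo 0 T, 0 ≤ κ x t)
    (hd : ∀ φ : ℝ → ℝ, Continuous φ → (∀ x, φ (x + 1) = φ x) →
      Tendsto (fun t => ∫ x in (0 : ℝ)..1, φ x * κ x t) (𝓝[<] T) (𝓝 (φ z)))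
    {F : ℝ → ℝ → ℝ} (hF : Continuous fun w : ℝ × ℝ => F w.1 w.2)
    (hp : ∀ x, F (x + 1) T = F x T) :
    Tendsto (fun t => ∫ x in (0 : ℝ)..1, F x t * κ x t) (𝓝[<] T) (𝓝 (F z T)) := by
  have hFt : ∀ t, Continuous fun x => F x t := fun t => hF.comp (by fun_prop : Continuous fun x : ℝ => (x, t))
  have h1 := hd (fun x => F x T) (hFt T) hp
  have h2 := hd (fun _ => 1) continuous_const (fun _ => rfl)
  have hI : Set.Ioo 0 T ∈ 𝓝[<] T := Ioo_mem_nhdsLT hT
  have h3 : Tendsto (fun t => ∫ x in (0 : ℝ)..1, (F x t - F x T) * κ x t) (𝓝[<] T) (𝓝 0) := by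
    rw [Metric.tendsto_nhds]
    intro η hη
    have e1 : ∀ᶠ t in 𝓝 T, ∀ x ∈ Set.Icc (0 : ℝ) 1, |F x t - F x T| ≤ η / 3 := by
      refine isCompact_Icc.eventually_forall_of_forall_eventually fun x _ => ?_
      have hc2 : Continuous fun w : ℝ × ℝ => |F w.2 w.1 - F w.2 T| :=
        ((hF.comp continuous_swap).sub ((hFt T).comp continuous_snd)).abs
      have := hc2.continuousAt (x := (T, x))
      refine (this.eventually (ge_mem_nhds (a := η / 3) ?_))
      simp
      linarith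
    have e2 : ∀ᶠ t in 𝓝[<] T, ∫ x in (0 : ℝ)..1, 1 * κ x t < 2 :=
      h2.eventually (gt_mem_nhds (by norm_num))
    filter_upwards [e1.filter_mono nhdsWithin_le_nhds, e2, hI] with t a1 a2 a3
    rw [Real.dist_eq, sub_zero]
    have a4 : |∫ x in (0 : ℝ)..1, (F x t - F x T) * κ x t| ≤ ∫ x in (0 : ℝ)..1, η / 3 * κ x t := by
      refine (intervalIntegral.abs_integral_le_integral_abs zero_le_one).trans ?_
      refine intervalIntegral.integral_mono_on zero_le_one ?_ ?_ fun x hx => ?_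
      · exact ((((hFt t).sub (hFt T)).mul (hc t a3)).abs).intervalIntegrable _ _
      · exact (continuous_const.mul (hc t a3)).intervalIntegrable _ _
      · rw [abs_mul, abs_of_nonneg (hpos x t a3)]
        exact mul_le_mul_of_nonneg_right (a1 x hx) (hpos x t a3)
    rw [intervalIntegral.integral_const_mul] at a4
    simp only [one_mul] at a2
    nlinarith
  have h4 := h1.add h3
  rw [add_zero] at h4
  refine h4.congr' ?_
  filter_upwards [hI] with t ht
  rw [← intervalIntegral.integral_add (f := fun x => F x T * κ x t)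
    (g := fun x => (F x t - F x T) * κ x t) (((hFt T).mul (hc t ht)).intervalIntegrable _ _)
    ((((hFt t).sub (hFt T)).mul (hc t ht)).intervalIntegrable _ _)]
  congr 1
  funext x
  ring

theorem slice_cont {f : ℝ → ℝ → ℝ} {I : Set ℝ}
    (h : ContinuousOn (Function.uncurry f) (Set.univ ×ˢ I)) {t : ℝ} (ht : t ∈ I) :
    Continuous fun x => f x t := by
  rw [← continuousOn_univ]
  exact h.comp (by fun_prop : Continuous fun x : ℝ => (x, t)).continuousOn
    fun x _ => ⟨Set.mem_univ _, ht⟩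

theorem dx_per {f : ℝ → ℝ → ℝ} (h : ∀ x t, f (x + 1) t = f x t) (x t : ℝ) :
    dx f (x + 1) t = dx f x t := by
  unfold dx
  rw [← deriv_comp_add_const (fun y => f y t) 1 x]
  simp only [h]

theorem deriv_H (p : ℝ) : deriv (fun p : ℝ => p ^ 2 / 2) p = p := by
  have := ((hasDerivAt_pow 2 p).div_const 2).deriv
  rw [this]
  ring

theorem duality (D : Init) {ε : ℝ} (hε : 0 < ε) {u σ : ℝ → ℝ → ℝ} {z T : ℝ} (hT : 0 < T)
    (hu : ∀ x t, 0 ≤ t → dx u x t = D.q ε x t)
    (hσ : IsAdjointSol (fun _ p => p ^ 2 / 2) ε u z T σ) {t : ℝ} (ht : t ∈ Set.Ioo 0 T) :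
    ∫ x in (0 : ℝ)..1, D.q ε x t * σ x t = D.q ε z T := by
  obtain ⟨sp, ⟨sd, c0, c1, c2, c3⟩, s0, se, sdel⟩ := hσ
  let G : ℝ → ℝ → ℝ := fun s x =>
    (ε * D.qxx ε x s - D.q ε x s * D.qx ε x s) * σ x s + D.q ε x s * dt σ x s
  have hG : ContinuousOn (fun w : ℝ × ℝ => G w.2 w.1) (Set.univ ×ˢ Set.Ioo 0 T) :=
    (((continuous_const.mul (D.qxx_cont ε)).sub
      ((D.q_cont ε).mul (D.qx_cont ε))).continuousOn.mul c0).add
      ((D.q_cont ε).continuousOn.mul c3)
  have hqc : ∀ s, Continuous fun x => D.q ε x s := fun s =>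
    (D.q_cont ε).comp (by fun_prop : Continuous fun x : ℝ => (x, s))
  have hder : ∀ s ∈ Set.Ioo 0 T,
      HasDerivAt (fun r => ∫ x in (0 : ℝ)..1, D.q ε x r * σ x r) 0 s := by
    intro s hs
    have hGs : Continuous (G s) := slice_cont (f := fun x r => G r x) hG hs
    have hsub : Set.Icc (s / 2) ((s + T) / 2) ⊆ Set.Ioo 0 T := fun r hr =>
      ⟨by linarith [hr.1, hs.1], by linarith [hr.2, hs.2]⟩
    have hnb : Set.Icc (s / 2) ((s + T) / 2) ∈ 𝓝 s :=
      Icc_mem_nhds (by linarith [hs.1]) (by linarith [hs.2])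
    obtain ⟨M, hM⟩ := (isCompact_Icc.prod isCompact_Icc).exists_bound_of_continuousOn
      (hG.mono (Set.prod_mono (Set.subset_univ (Set.Icc (0 : ℝ) 1)) hsub))
    have h1 := (intervalIntegral.hasDerivAt_integral_of_dominated_loc_of_deriv_le (μ := volume)
      (a := 0) (b := 1) (F := fun r x => D.q ε x r * σ x r) (F' := G) (bound := fun _ => M) hnb
      (by
        filter_upwards [hnb] with r hr
        exact ((hqc r).mul (slice_cont c0 (hsub hr))).aestronglyMeasurable)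
      (((hqc s).mul (slice_cont c0 hs)).intervalIntegrable _ _) hGs.aestronglyMeasurable
      (Eventually.of_forall fun x hx r hr => by
        rw [Set.uIoc_of_le zero_le_one] at hx
        exact hM (x, r) ⟨Set.Ioc_subset_Icc_self hx, hr⟩)
      intervalIntegrable_const
      (Eventually.of_forall fun x _ r hr =>
        (D.q_dt hε x (hsub hr).1).mul (sd x r (hsub hr)).2.2.hasDerivAt)).2
    refine h1.congr_deriv ?_
    have h2 : ∀ x, HasDerivAt (fun y => ε * (D.qx ε y s * σ y s - D.q ε y s * dx σ y s) -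
        D.q ε y s * (D.q ε y s * σ y s)) (G s x) x := by
      intro x
      have a1 : HasDerivAt (fun y => σ y s) (dx σ x s) x := (sd x s hs).1.hasDerivAt
      have a2 : HasDerivAt (fun y => dx σ y s) (dx (dx σ) x s) x := (sd x s hs).2.1.hasDerivAt
      have a3 := D.q_dx ε x s
      have a4 := D.qx_dx ε x s
      have a5 := se x s hs
      have a6 : dx (fun y r => deriv (fun p : ℝ => p ^ 2 / 2) (dx u y r) * σ y r) x s =
          D.qx ε x s * σ x s + D.q ε x s * dx σ x s := by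
        unfold dx
        have : (fun y => deriv (fun p : ℝ => p ^ 2 / 2) (deriv (fun y => u y s) y) * σ y s) =
            fun y => D.q ε y s * σ y s := by
          funext y
          rw [deriv_H, ← hu y s hs.1.le]
          rfl
        rw [this]
        exact (a3.mul a1).deriv
      rw [a6] at a5
      have h := (((a4.mul a1).sub (a3.mul a2)).const_mul ε).sub (a3.mul (a3.mul a1))
      refine h.congr_deriv ?_
      simp only [G, Pi.mul_apply]
      linear_combination D.q ε x s * a5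
    rw [intervalIntegral.integral_eq_sub_of_hasDerivAt (fun x _ => h2 x)
      (hGs.intervalIntegrable _ _)]
    have b1 := D.q_per ε 0 s
    have b2 := D.qx_per ε 0 s
    have b3 := sp 0 s
    have b4 := dx_per sp 0 s
    rw [zero_add] at b1 b2 b3 b4
    rw [b1, b2, b3, b4, sub_self]
  have hconst : ∀ s ∈ Set.Ioo 0 T, ∫ x in (0 : ℝ)..1, D.q ε x t * σ x t =
      ∫ x in (0 : ℝ)..1, D.q ε x s * σ x s := fun s hs =>
    isOpen_Ioo.is_const_of_deriv_eq_zero (f := fun r => ∫ x in (0 : ℝ)..1, D.q ε x r * σ x r)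
      isPreconnected_Ioo (fun r hr => (hder r hr).differentiableAt.differentiableWithinAt)
      (fun r hr => (hder r hr).deriv) ht hs
  have hlim := delta_moving hT (fun r hr => slice_cont c0 hr) s0 sdel (F := D.q ε) (D.q_cont ε)
    (fun x => D.q_per ε x T)
  refine tendsto_nhds_unique ?_ hlim
  refine tendsto_const_nhds.congr' ?_
  filter_upwards [Ioo_mem_nhdsLT hT] with s hs
  exact hconst s hs

namespace Init

variable (D : Init) (ε T : ℝ)

/-- The explicit solution of the adjoint equation. -/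
noncomputable def sg (x t : ℝ) : ℝ := (D.V ε 0 0 T)⁻¹ * (D.V ε 0 x t * K 0 x (ε * (T - t)))

theorem isAdjointSol {ε T : ℝ} (hε : 0 < ε) (hT : 0 < T) :
    IsAdjointSol (fun _ p => p ^ 2 / 2) ε (D.u ε) 0 T (D.sg ε T) := by
  set c := (D.V ε 0 0 T)⁻¹ with hc
  have hc0 : 0 < c := inv_pos.mpr (D.V_pos ε 0 T)
  have hτ : ∀ t ∈ Set.Ioo 0 T, 0 < ε * (T - t) := fun t ht => mul_pos hε (sub_pos.mpr ht.2)
  have d1 : ∀ x, ∀ t ∈ Set.Ioo 0 T, HasDerivAt (fun y => D.sg ε T y t)
      (c * (D.V ε 1 x t * K 0 x (ε * (T - t)) + D.V ε 0 x t * K 1 x (ε * (T - t)))) x :=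
    fun x t ht => ((D.V_dx ε (k := 0) (by norm_num) x t).mul (K_dx 0 x (hτ t ht))).const_mul c
  have e1 : ∀ x, ∀ t ∈ Set.Ioo 0 T, dx (D.sg ε T) x t =
      c * (D.V ε 1 x t * K 0 x (ε * (T - t)) + D.V ε 0 x t * K 1 x (ε * (T - t))) :=
    fun x t ht => (d1 x t ht).deriv
  have d2 : ∀ x, ∀ t ∈ Set.Ioo 0 T, HasDerivAt (fun y => dx (D.sg ε T) y t)
      (c * (D.V ε 2 x t * K 0 x (ε * (T - t)) + 2 * (D.V ε 1 x t * K 1 x (ε * (T - t))) +
        D.V ε 0 x t * K 2 x (ε * (T - t)))) x := by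
    intro x t ht
    simp only [e1 _ t ht]
    have h := (((D.V_dx ε (k := 1) (by norm_num) x t).mul (K_dx 0 x (hτ t ht))).add
      ((D.V_dx ε (k := 0) (by norm_num) x t).mul (K_dx 1 x (hτ t ht)))).const_mul c
    exact h.congr_deriv (by ring)
  have e2 : ∀ x, ∀ t ∈ Set.Ioo 0 T, dx (dx (D.sg ε T)) x t =
      c * (D.V ε 2 x t * K 0 x (ε * (T - t)) + 2 * (D.V ε 1 x t * K 1 x (ε * (T - t))) +
        D.V ε 0 x t * K 2 x (ε * (T - t))) := fun x t ht => (d2 x t ht).deriv
  have d3 : ∀ x, ∀ t ∈ Set.Ioo 0 T, HasDerivAt (fun s => D.sg ε T x s)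
      (c * (ε * (D.V ε 2 x t * K 0 x (ε * (T - t)) - D.V ε 0 x t * K 2 x (ε * (T - t))))) t := by
    intro x t ht
    have h1 := (K_dt 0 x (hτ t ht)).comp t (((hasDerivAt_id t).const_sub T).const_mul ε)
    have h := ((D.V_dt hε (k := 0) (by norm_num) x ht.1).mul h1).const_mul c
    exact h.congr_deriv (by simp only [Function.comp, id]; ring)
  have e3 : ∀ x, ∀ t ∈ Set.Ioo 0 T, dt (D.sg ε T) x t =
      c * (ε * (D.V ε 2 x t * K 0 x (ε * (T - t)) - D.V ε 0 x t * K 2 x (ε * (T - t)))) :=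
    fun x t ht => (d3 x t ht).deriv
  have kc : ∀ j, ContinuousOn (fun w : ℝ × ℝ => K j w.1 (ε * (T - w.2)))
      (Set.univ ×ˢ Set.Ioo 0 T) := by
    rintro j ⟨x, t⟩ ⟨-, ht⟩
    refine ContinuousAt.continuousWithinAt ?_
    exact ContinuousAt.comp (f := fun w : ℝ × ℝ => (w.1, ε * (T - w.2)))
      (g := fun w : ℝ × ℝ => K j w.1 w.2) (K_cont j x (hτ t ht)) (by fun_prop)
  have vc : ∀ k, k ≤ 3 → ContinuousOn (fun w : ℝ × ℝ => D.V ε k w.1 w.2)
      (Set.univ ×ˢ Set.Ioo 0 T) := fun k hk => (D.V_cont ε hk).continuousOn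
  refine ⟨fun x t => by simp only [sg, V_per, K_per],
    ⟨fun x t ht => ⟨(d1 x t ht).differentiableAt, (d2 x t ht).differentiableAt,
      (d3 x t ht).differentiableAt⟩, ?_, ?_, ?_, ?_⟩, fun x t ht => ?_, fun x t ht => ?_,
    fun φ hφ hp => ?_⟩
  · exact continuousOn_const.mul ((vc 0 (by norm_num)).mul (kc 0))
  · refine ContinuousOn.congr ((continuousOn_const (c := c)).mul (((vc 1 (by norm_num)).mul (kc 0)).add
      ((vc 0 (by norm_num)).mul (kc 1)))) ?_
    rintro ⟨x, t⟩ ⟨-, ht⟩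
    exact e1 x t ht
  · refine ContinuousOn.congr ((continuousOn_const (c := c)).mul ((((vc 2 (by norm_num)).mul (kc 0)).add
      ((continuousOn_const (c := 2)).mul ((vc 1 (by norm_num)).mul (kc 1)))).add
      ((vc 0 (by norm_num)).mul (kc 2)))) ?_
    rintro ⟨x, t⟩ ⟨-, ht⟩
    exact e2 x t ht
  · refine ContinuousOn.congr ((continuousOn_const (c := c)).mul ((continuousOn_const (c := ε)).mul
      (((vc 2 (by norm_num)).mul (kc 0)).sub ((vc 0 (by norm_num)).mul (kc 2))))) ?_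
    rintro ⟨x, t⟩ ⟨-, ht⟩
    exact e3 x t ht
  · exact mul_nonneg hc0.le (mul_nonneg (D.V_pos ε x t).le (K_nonneg x hε (sub_pos.mpr ht.2)))
  · have a6 : dx (fun y r => deriv (fun p : ℝ => p ^ 2 / 2) (dx (D.u ε) y r) * D.sg ε T y r) x t =
        D.qx ε x t * D.sg ε T x t + D.q ε x t * dx (D.sg ε T) x t := by
      rw [e1 x t ht, dx_u]
      simp only [deriv_H]
      exact ((D.q_dx ε x t).mul (d1 x t ht)).deriv
    rw [a6, e1 x t ht, e2 x t ht, e3 x t ht]
    have := D.V_ne ε x t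
    simp only [sg, q, qx, ← hc]
    field_simp
    ring
  · have h := delta_moving (κ := fun x t => K 0 x (ε * (T - t))) (z := 0) hT
      (fun t ht => slice_cont (f := fun x t => K 0 x (ε * (T - t))) (kc 0) ht)
      (fun x t ht => K_nonneg x hε (sub_pos.mpr ht.2))
      (fun φ hφ hp => K_delta hφ hp hε T) (F := fun x t => φ x * (c * D.V ε 0 x t))
      ((hφ.comp continuous_fst).mul (continuous_const.mul (D.V_cont ε (by norm_num))))
      (fun x => by simp only [hp, V_per])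
    rw [hc, inv_mul_cancel₀ (D.V_ne ε 0 T), mul_one] at h
    refine h.congr fun t => ?_
    congr 1
    funext x
    simp only [sg]
    ring

end Init

end Pool.Agent.P.MP_e9de1a_an
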