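import Mathlib
import Pool.Agent.P.MP_e9de1a_an.Dual
import Pool.Agent.P.MP_e9de1a_an.Baire

set_option autoImplicit false

open MeasureTheory Real Filter Topology

namespace Pool.Agent.P.MP_e9de1a_an

theorem integral_eq_gibbs {g : ℝ → ℝ} (hg : ContDiff ℝ 3 g) (hp : ∀ x, g (x + 1) = g x) {ε : ℝ}
    (hε : 0 < ε) {u σ : ℝ → ℝ → ℝ} (hu : IsViscousSol (fun _ p => p ^ 2 / 2) g ε u)
    (hσ : IsAdjointSol (fun _ p => p ^ 2 / 2) ε u 0 (1 / 2) σ) :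
    ∫ t in (0 : ℝ)..(1 / 2), ∫ x in (0 : ℝ)..1, dx u x t * σ x t =
      -gibbs (fun y => g y + y ^ 2) ε := by
  set D := initOf hg hp ε with hD
  have h1 : ∀ x t, 0 ≤ t → dx u x t = D.q ε x t := by
    intro x t ht
    rw [← D.dx_u]
    unfold dx
    congr 1
    funext y
    exact visc_unique hε hu (D.isViscousSol hε (initOf_zero hg hp ε)) y ht
  have h2 : ∀ t ∈ Set.Ioo (0 : ℝ) (1 / 2),
      ∫ x in (0 : ℝ)..1, dx u x t * σ x t = -2 * gibbs (fun y => g y + y ^ 2) ε := by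
    intro t ht
    simp only [h1 _ t ht.1.le]
    rw [duality D hε (by norm_num) h1 hσ ht, q_eq_gibbs hg hp hε]
  rw [intervalIntegral.integral_of_le (by norm_num), integral_Ioc_eq_integral_Ioo,
    setIntegral_congr_fun measurableSet_Ioo h2]
  simp

theorem main : ∃ (H : ℝ → ℝ → ℝ) (g : ℝ → ℝ) (z T : ℝ),
    ContDiff ℝ 2 (Function.uncurry H) ∧ (∀ x p, H (x + 1) p = H x p) ∧
    (∀ x, ConvexOn ℝ Set.univ (H x)) ∧
    (∀ M : ℝ, ∃ R : ℝ, ∀ x p, R ≤ |p| → M ≤ H x p ^ 2 / 2 + deriv (fun y => H y p) x * p) ∧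
    ContDiff ℝ 2 g ∧ (∀ x, g (x + 1) = g x) ∧ 0 < T ∧
    (∀ ε ∈ Set.Ioo (0 : ℝ) 1, ∃ u σ, IsViscousSol H g ε u ∧ IsAdjointSol H ε u z T σ) ∧
    ∃ (ψ : ℝ → ℝ → ℝ → ℝ) (a b : ℝ),
      Continuous (fun w : ℝ × ℝ × ℝ => ψ w.1 w.2.1 w.2.2) ∧
      (∀ x p t, ψ (x + 1) p t = ψ x p t) ∧ a < b ∧
      ∀ u σ : ℝ → ℝ → ℝ → ℝ,
        (∀ ε ∈ Set.Ioo (0 : ℝ) 1,
          IsViscousSol H g ε (u ε) ∧ IsAdjointSol H ε (u ε) z T (σ ε)) →
        (∃ᶠ ε in nhdsWithin (0 : ℝ) (Set.Ioi 0),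
          (∫ t in (0 : ℝ)..T, ∫ x in (0 : ℝ)..1, ψ x (dx (u ε) x t) t * σ ε x t) < a) ∧
        (∃ᶠ ε in nhdsWithin (0 : ℝ) (Set.Ioi 0),
          b < ∫ t in (0 : ℝ)..T, ∫ x in (0 : ℝ)..1, ψ x (dx (u ε) x t) t * σ ε x t) := by
  obtain ⟨g, hg, hp, h1, h2⟩ := exists_bad_g
  refine ⟨fun _ p => p ^ 2 / 2, g, 0, 1 / 2, ?_, fun _ _ => rfl, fun _ => ?_, fun M => ?_,
    hg.of_le (by norm_num), hp, by norm_num, fun ε hε => ?_,
    fun _ p _ => p, -1 / 48, 1 / 48, by fun_prop, fun _ _ _ => rfl, by norm_num,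
    fun u σ h => ?_⟩
  · change ContDiff ℝ 2 fun w : ℝ × ℝ => w.2 ^ 2 / 2
    fun_prop
  · have := (Even.convexOn_pow (𝕜 := ℝ) (n := 2) even_two).smul (c := (1 / 2 : ℝ)) (by norm_num)
    refine this.congr fun p _ => ?_
    simp only [smul_eq_mul]
    ring
  · refine ⟨|M| + 8, fun x p hp => ?_⟩
    have h3 := abs_nonneg M
    have h4 := le_abs_self M
    have h5 : (|M| + 8) ^ 2 ≤ p ^ 2 := by
      rw [← sq_abs p]
      exact pow_le_pow_left₀ (by linarith) hp 2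
    simp only [deriv_const, zero_mul, add_zero]
    have h6 : |M| + 8 ≤ p ^ 2 := by nlinarith
    nlinarith
  · exact ⟨_, _, (initOf hg hp ε).isViscousSol hε.1 (initOf_zero hg hp ε),
      (initOf hg hp ε).isAdjointSol hε.1 (by norm_num)⟩
  · have hI : ∀ᶠ ε in 𝓝[>] (0 : ℝ), ε ∈ Set.Ioo (0 : ℝ) 1 := Ioo_mem_nhdsGT one_pos
    constructor
    · refine (h1.and_eventually hI).mono fun ε ⟨a1, a2⟩ => ?_
      rw [integral_eq_gibbs hg hp a2.1 (h ε a2).1 (h ε a2).2]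
      linarith
    · refine (h2.and_eventually hI).mono fun ε ⟨a1, a2⟩ => ?_
      rw [integral_eq_gibbs hg hp a2.1 (h ε a2).1 (h ε a2).2]
      linarith

end Pool.Agent.P.MP_e9de1a_an
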